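import Pool.Agent.Helper51.CP.Defs

namespace Pool.Agent.Helper55.CP

open Complex MeasureTheory Set Pool.Agent.Helper51.CP Pool.Agent.Helper51.CP.CPoly
open scoped BoundedContinuousFunction

noncomputable section

theorem ds_comap_univ :
    (Measure.comap Subtype.val (volume : Measure ℝ) : Measure (Set.Ioo (0 : ℝ) 1)) univ = 1 := by
  rw [comap_subtype_coe_apply measurableSet_Ioo, image_univ, Subtype.range_coe, Real.volume_Ioo]
  simp

instance ds_comap_fin :
    IsFiniteMeasure (Measure.comap Subtype.val (volume : Measure ℝ) : Measure (Set.Ioo (0 : ℝ) 1)) :=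
  ⟨by rw [ds_comap_univ]; exact ENNReal.one_lt_top⟩

instance ds_fin (P : CPoly) : IsFiniteMeasure P.ds := by
  unfold CPoly.ds
  infer_instance

theorem gm_cont (P : CPoly) : Continuous P.gm := P.gmB.continuous

theorem gm_meas (P : CPoly) : Measurable P.gm := (gm_cont P).measurable

theorem dr_cont (P : CPoly) : Continuous P.dr := by
  unfold CPoly.dr CPoly.side
  fun_prop

theorem dr_meas (P : CPoly) : Measurable P.dr := (dr_cont P).measurable

theorem ker_meas2 (P : CPoly) : Measurable (fun q : P.X × P.X => P.ker (P.gm q.1) q.2) := by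
  unfold CPoly.ker
  have h1 : Measurable (fun q : P.X × P.X => P.dr q.2) := (dr_meas P).comp measurable_snd
  have h2 : Measurable (fun q : P.X × P.X => P.gm q.2) := (gm_meas P).comp measurable_snd
  have h3 : Measurable (fun q : P.X × P.X => P.gm q.1) := (gm_meas P).comp measurable_fst
  exact (measurable_im.comp (h1.div (h2.sub h3))).div_const _

theorem ker_meas (P : CPoly) (w : ℂ) : Measurable (P.ker w) := by
  unfold CPoly.ker
  exact (measurable_im.comp ((dr_meas P).div ((gm_meas P).sub_const w))).div_const _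

theorem ker_meas1 (P : CPoly) (x : P.X) : Measurable (fun b : P.X => P.ker (P.gm b) x) := by
  unfold CPoly.ker
  exact (measurable_im.comp (measurable_const.div (measurable_const.sub (gm_meas P)))).div_const _

theorem lint_Pm (P : CPoly) (b : P.X) {g : P.X → ENNReal} (hg : Measurable g) :
    ∫⁻ x, g x ∂(P.Pm b) = ∫⁻ x, ENNReal.ofReal (P.ker (P.gm b) x) * g x ∂P.ds := by
  unfold CPoly.Pm
  rw [lintegral_withDensity_eq_lintegral_mul _ (ker_meas P _).ennreal_ofReal hg]
  rfl

theorem lint_Pm_meas (P : CPoly) {g : P.X → ENNReal} (hg : Measurable g) :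
    Measurable (fun b => ∫⁻ x, g x ∂(P.Pm b)) := by
  have : (fun b => ∫⁻ x, g x ∂(P.Pm b)) =
      fun b => ∫⁻ x, ENNReal.ofReal (P.ker (P.gm b) x) * g x ∂P.ds := by
    funext b
    exact lint_Pm P b hg
  rw [this]
  apply Measurable.lintegral_prod_right'
    (f := fun q : P.X × P.X => ENNReal.ofReal (P.ker (P.gm q.1) q.2) * g q.2)
  exact (ker_meas2 P).ennreal_ofReal.mul (hg.comp measurable_snd)

theorem int_Pm_meas (P : CPoly) (f : P.X →ᵇ ℂ) :
    Measurable (fun b => ∫ x, f x ∂(P.Pm b)) := by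
  have : (fun b => ∫ x, f x ∂(P.Pm b)) =
      fun b => ∫ x, (ENNReal.ofReal (P.ker (P.gm b) x)).toReal • f x ∂P.ds := by
    funext b
    unfold CPoly.Pm
    rw [integral_withDensity_eq_integral_toReal_smul (ker_meas P _).ennreal_ofReal
      (Filter.Eventually.of_forall fun x => ENNReal.ofReal_lt_top)]
  rw [this]
  have h : StronglyMeasurable
      (fun q : P.X × P.X => (ENNReal.ofReal (P.ker (P.gm q.1) q.2)).toReal • f q.2) := by
    apply Measurable.stronglyMeasurable
    exact (ker_meas2 P).ennreal_ofReal.ennreal_toReal.smul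
      (f.continuous.measurable.comp measurable_snd)
  exact h.integral_prod_right'.measurable

section
variable {P : CPoly} {f : P.X →ᵇ ℂ}

theorem f_int (f : P.X →ᵇ ℂ) (b : P.X) [IsProbabilityMeasure (P.Pm b)] :
    Integrable f (P.Pm b) := f.integrable _

theorem f_le (hf : ‖f‖ ≤ 1) (x : P.X) : ‖f x‖ ≤ 1 := (f.norm_coe_le_norm x).trans hf

theorem R_eq (f : P.X →ᵇ ℂ) (b : P.X) [IsProbabilityMeasure (P.Pm b)] :
    2 * P.R f b = ∫ x, (1 + ((starRingEnd ℂ) (f b) * f x).re) ∂(P.Pm b) := by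
  unfold CPoly.R
  have hi : Integrable (fun x => ((starRingEnd ℂ) (f b) * f x).re) (P.Pm b) :=
    ((f_int f b).const_mul _).re
  rw [integral_add (integrable_const _) hi]
  have h1 : ∫ x, ((starRingEnd ℂ) (f b) * f x).re ∂(P.Pm b) =
      ((starRingEnd ℂ) (f b) * ∫ x, f x ∂(P.Pm b)).re := by
    rw [← integral_const_mul]
    exact integral_re ((f_int f b).const_mul _)
  rw [h1]
  simp
  ring

theorem re_ge (hf : ‖f‖ ≤ 1) (b x : P.X) :
    1 - ‖f b‖ ≤ 1 + ((starRingEnd ℂ) (f b) * f x).re := by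
  have h1 : |((starRingEnd ℂ) (f b) * f x).re| ≤ ‖f b‖ * ‖f x‖ := by
    refine (Complex.abs_re_le_norm _).trans ?_
    rw [norm_mul, RCLike.norm_conj]
  have h2 := f_le hf x
  have h3 : ‖f b‖ * ‖f x‖ ≤ ‖f b‖ := by nlinarith [norm_nonneg (f b)]
  have := neg_abs_le (((starRingEnd ℂ) (f b) * f x).re)
  linarith

theorem R_ge (hf : ‖f‖ ≤ 1) (b : P.X) [IsProbabilityMeasure (P.Pm b)] :
    1 - ‖f b‖ ≤ 2 * P.R f b := by
  rw [R_eq]
  calc 1 - ‖f b‖ = ∫ _x, (1 - ‖f b‖) ∂(P.Pm b) := by simp
    _ ≤ _ := by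
      refine integral_mono (integrable_const _) ?_ (fun x => re_ge hf b x)
      exact (integrable_const _).add (((f_int f b).const_mul _).re)

theorem R_nonneg (hf : ‖f‖ ≤ 1) (b : P.X) [IsProbabilityMeasure (P.Pm b)] : 0 ≤ P.R f b := by
  have := R_ge hf b
  have := f_le hf b
  linarith

theorem sq_le (hf : ‖f‖ ≤ 1) (b x : P.X) :
    ‖f x + f b‖ ^ 2 ≤ 2 * (1 + ((starRingEnd ℂ) (f b) * f x).re) := by
  have h1 := f_le hf x
  have h2 := f_le hf b
  have h3 : ‖f x + f b‖ ^ 2 = ‖f x‖ ^ 2 + ‖f b‖ ^ 2 + 2 * ((starRingEnd ℂ) (f b) * f x).re := by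
    rw [← Complex.normSq_eq_norm_sq, ← Complex.normSq_eq_norm_sq, ← Complex.normSq_eq_norm_sq,
      Complex.normSq_add, mul_comm (f x)]
  rw [h3]
  nlinarith [norm_nonneg (f x), norm_nonneg (f b)]

theorem lint_sq_le (hf : ‖f‖ ≤ 1) (b : P.X) [IsProbabilityMeasure (P.Pm b)] :
    ∫⁻ x, ENNReal.ofReal (‖f x + f b‖ ^ 2) ∂(P.Pm b) ≤ ENNReal.ofReal (4 * P.R f b) := by
  have h0 : Integrable (fun x => 2 * (1 + ((starRingEnd ℂ) (f b) * f x).re)) (P.Pm b) :=
    ((integrable_const _).add (((f_int f b).const_mul _).re)).const_mul 2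
  have h4 : 4 * P.R f b = ∫ x, 2 * (1 + ((starRingEnd ℂ) (f b) * f x).re) ∂(P.Pm b) := by
    rw [integral_const_mul, ← R_eq]
    ring
  rw [h4, ofReal_integral_eq_lintegral_ofReal h0 (Filter.Eventually.of_forall fun x => by
    have := re_ge hf b x
    have := f_le hf b
    show (0:ℝ) ≤ 2 * (1 + ((starRingEnd ℂ) (f b) * f x).re)
    linarith)]
  exact lintegral_mono fun x => ENNReal.ofReal_le_ofReal (sq_le hf b x)

end

theorem R_meas (P : CPoly) (f : P.X →ᵇ ℂ) : Measurable (P.R f) := by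
  unfold CPoly.R
  have h1 : Measurable (fun b => (starRingEnd ℂ) (f b)) :=
    (Complex.continuous_conj.comp f.continuous).measurable
  exact ((measurable_re.comp (h1.mul (int_Pm_meas P f))).const_add 1).div_const 2

theorem R_le (hPM : ST_PM) {P : CPoly} {f : P.X →ᵇ ℂ} (hf : ‖f‖ ≤ 1) (b : P.X) :
    P.R f b ≤ 1 := by
  have := (hPM P).2.2 b
  have h : 2 * P.R f b ≤ ∫ _x, (2 : ℝ) ∂(P.Pm b) := by
    rw [R_eq]
    refine integral_mono ((integrable_const _).add (((f_int f b).const_mul _).re))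
      (integrable_const _) fun x => ?_
    have h1 : |((starRingEnd ℂ) (f b) * f x).re| ≤ ‖f b‖ * ‖f x‖ := by
      refine (Complex.abs_re_le_norm _).trans ?_
      rw [norm_mul, RCLike.norm_conj]
    have h2 := f_le hf x
    have h3 := f_le hf b
    have h4 : ‖f b‖ * ‖f x‖ ≤ 1 := by nlinarith [norm_nonneg (f b), norm_nonneg (f x)]
    have := le_abs_self (((starRingEnd ℂ) (f b) * f x).re)
    show 1 + ((starRingEnd ℂ) (f b) * f x).re ≤ 2
    linarith
  simp at h
  linarith

theorem R_int (hPM : ST_PM) {P : CPoly} {f : P.X →ᵇ ℂ} (hf : ‖f‖ ≤ 1) (b0 : P.X) :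
    Integrable (P.R f) (P.Pm b0) := by
  have := (hPM P).2.2 b0
  refine Integrable.of_bound (R_meas P f).aestronglyMeasurable 1
    (Filter.Eventually.of_forall fun b => ?_)
  have := (hPM P).2.2 b
  rw [Real.norm_of_nonneg (R_nonneg hf b)]
  exact R_le hPM hf b

theorem st_G1 : ST_G1 := by
  intro hPM P f hf b0 hlt
  have := (hPM P).2.2 b0
  have hR0 := R_nonneg hf b0
  have hRi : 0 ≤ ∫ x, P.R f x ∂(P.Pm b0) :=
    integral_nonneg fun b => by
      have := (hPM P).2.2 b
      exact R_nonneg hf b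
  refine ⟨-f b0, ?_, ?_, ?_, ?_⟩
  · rw [norm_neg]
    have := R_ge hf b0
    linarith
  · rw [norm_neg]; exact f_le hf b0
  · refine le_trans (le_of_eq ?_) ((lint_sq_le hf b0).trans (ENNReal.ofReal_le_ofReal (by linarith)))
    simp only [sub_neg_eq_add]
  · have hm1 : ∀ b : P.X, Measurable (fun x => ENNReal.ofReal (‖f x + f b‖ ^ 2)) := fun b =>
      ((f.continuous.add continuous_const).norm.pow 2).measurable.ennreal_ofReal
    have hkey : ∀ b : P.X, ∫⁻ x, ENNReal.ofReal (‖f x + -f b0‖ ^ 2) ∂(P.Pm b) ≤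
        ENNReal.ofReal (8 * P.R f b) + ENNReal.ofReal (2 * ‖f b + f b0‖ ^ 2) := by
      intro b
      have := (hPM P).2.2 b
      calc ∫⁻ x, ENNReal.ofReal (‖f x + -f b0‖ ^ 2) ∂(P.Pm b)
          ≤ ∫⁻ x, (2 * ENNReal.ofReal (‖f x + f b‖ ^ 2) +
              ENNReal.ofReal (2 * ‖f b + f b0‖ ^ 2)) ∂(P.Pm b) := by
            refine lintegral_mono fun x => ?_
            have h2 : (2 : ENNReal) = ENNReal.ofReal 2 := by simp
            rw [h2, ← ENNReal.ofReal_mul (by norm_num), ← ENNReal.ofReal_add (by positivity)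
              (by positivity)]
            apply ENNReal.ofReal_le_ofReal
            have h3 : ‖f x + -f b0‖ ≤ ‖f x + f b‖ + ‖f b + f b0‖ := by
              have : f x + -f b0 = (f x + f b) - (f b + f b0) := by ring
              rw [this]
              exact norm_sub_le _ _
            have h4 := norm_nonneg (f x + -f b0)
            nlinarith [sq_nonneg (‖f x + f b‖ - ‖f b + f b0‖)]
        _ = 2 * (∫⁻ x, ENNReal.ofReal (‖f x + f b‖ ^ 2) ∂(P.Pm b)) +
              ENNReal.ofReal (2 * ‖f b + f b0‖ ^ 2) := by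
            rw [lintegral_add_left ((hm1 b).const_mul 2), lintegral_const_mul _ (hm1 b)]
            simp
        _ ≤ 2 * ENNReal.ofReal (4 * P.R f b) + ENNReal.ofReal (2 * ‖f b + f b0‖ ^ 2) := by
            gcongr
            exact lint_sq_le hf b
        _ = ENNReal.ofReal (8 * P.R f b) + ENNReal.ofReal (2 * ‖f b + f b0‖ ^ 2) := by
            congr 1
            have h2 : (2 : ENNReal) = ENNReal.ofReal 2 := by simp
            rw [h2, ← ENNReal.ofReal_mul (by norm_num)]
            congr 1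
            ring
    calc ∫⁻ b, (∫⁻ x, ENNReal.ofReal (‖f x + -f b0‖ ^ 2) ∂(P.Pm b)) ∂(P.Pm b0)
        ≤ ∫⁻ b, (ENNReal.ofReal (8 * P.R f b) + ENNReal.ofReal (2 * ‖f b + f b0‖ ^ 2))
            ∂(P.Pm b0) := lintegral_mono hkey
      _ = (∫⁻ b, ENNReal.ofReal (8 * P.R f b) ∂(P.Pm b0)) +
            ∫⁻ b, ENNReal.ofReal (2 * ‖f b + f b0‖ ^ 2) ∂(P.Pm b0) := by
          rw [lintegral_add_left ((R_meas P f).const_mul 8).ennreal_ofReal]
      _ ≤ ENNReal.ofReal (8 * ∫ b, P.R f b ∂(P.Pm b0)) + ENNReal.ofReal (8 * P.R f b0) := by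
          gcongr
          · rw [← integral_const_mul, ofReal_integral_eq_lintegral_ofReal
              ((R_int hPM hf b0).const_mul 8) (Filter.Eventually.of_forall fun b => by
                have := (hPM P).2.2 b
                have := R_nonneg hf b
                show (0:ℝ) ≤ 8 * P.R f b
                linarith)]
          · have h2 : ∀ b : P.X, ENNReal.ofReal (2 * ‖f b + f b0‖ ^ 2) =
                2 * ENNReal.ofReal (‖f b + f b0‖ ^ 2) := by
              intro b
              have h2 : (2 : ENNReal) = ENNReal.ofReal 2 := by simp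
              rw [h2, ← ENNReal.ofReal_mul (by norm_num)]
            simp_rw [h2]
            rw [lintegral_const_mul _ (hm1 b0)]
            have h8 : ENNReal.ofReal (8 * P.R f b0) = 2 * ENNReal.ofReal (4 * P.R f b0) := by
              have h2 : (2 : ENNReal) = ENNReal.ofReal 2 := by simp
              rw [h2, ← ENNReal.ofReal_mul (by norm_num)]
              congr 1
              ring
            rw [h8]
            gcongr
            exact lint_sq_le hf b0
      _ = ENNReal.ofReal (8 * ∫ b, P.R f b ∂(P.Pm b0) + 8 * P.R f b0) := by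
          rw [ENNReal.ofReal_add (by positivity) (by positivity)]
      _ ≤ ENNReal.ofReal (16 * eps0) := by
          apply ENNReal.ofReal_le_ofReal
          have : (0 : ℝ) < eps0 := by unfold eps0; norm_num
          linarith

end

end Pool.Agent.Helper55.CP
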