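import Pool.Agent.Helper51.CP.Defs
import Pool.Agent.Helper55.CP.G1

namespace Pool.Agent.Helper55.CP

open Complex MeasureTheory Set Pool.Agent.Helper51.CP Pool.Agent.Helper51.CP.CPoly
open scoped BoundedContinuousFunction

noncomputable section

/-- quantiles of a bounded function -/
theorem quantile {X : Type*} [MeasurableSpace X] (μ : Measure X) [IsProbabilityMeasure μ]
    (r : X → ℝ) (hr : Measurable r) (h0 : ∀ x, 0 ≤ r x) (D : ℝ) (hD : ∀ x, r x ≤ D)
    (t : ENNReal) (ht0 : 0 < t) (ht1 : t ≤ 1) :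
    ∃ l : ℝ, t ≤ μ {x | l ≤ r x} ∧ μ {x | l < r x} ≤ t := by
  set S : Set ℝ := {l | t ≤ μ {x | l ≤ r x}} with hS
  have hS0 : (0 : ℝ) ∈ S := by
    show t ≤ μ {x | 0 ≤ r x}
    have : {x | 0 ≤ r x} = univ := by ext x; simp [h0 x]
    rw [this, measure_univ]
    exact ht1
  have hSb : BddAbove S := by
    refine ⟨D, fun l hl => ?_⟩
    by_contra hlt
    push Not at hlt
    have : {x | l ≤ r x} = ∅ := by
      ext x
      simp only [mem_ofPred_eq, mem_empty_iff_false, iff_false, not_le]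
      exact (hD x).trans_lt hlt
    have h2 : t ≤ μ {x | l ≤ r x} := hl
    rw [this, measure_empty] at h2
    exact absurd ht0 (not_lt.2 h2)
  refine ⟨sSup S, ?_, ?_⟩
  · have hI : {x | sSup S ≤ r x} = ⋂ n : ℕ, {x | sSup S - 1 / ((n : ℝ) + 1) ≤ r x} := by
      ext x
      simp only [mem_ofPred_eq, mem_iInter]
      constructor
      · intro h n
        have : (0 : ℝ) < 1 / ((n : ℝ) + 1) := by positivity
        linarith
      · intro h
        by_contra hlt
        push Not at hlt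
        obtain ⟨n, hn⟩ := exists_nat_one_div_lt (sub_pos.2 hlt)
        have := h n
        linarith
    have hanti : Antitone (fun n : ℕ => {x | sSup S - 1 / ((n : ℝ) + 1) ≤ r x}) := by
      intro m n hmn x hx
      simp only [mem_ofPred_eq] at hx ⊢
      have : 1 / ((n : ℝ) + 1) ≤ 1 / ((m : ℝ) + 1) := by
        apply one_div_le_one_div_of_le (by positivity)
        have : (m : ℝ) ≤ n := by exact_mod_cast hmn
        linarith
      linarith
    rw [hI]
    have hlim := tendsto_measure_iInter_atTop (μ := μ)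
      (s := fun n : ℕ => {x | sSup S - 1 / ((n : ℝ) + 1) ≤ r x})
      (fun n => (measurableSet_le measurable_const hr).nullMeasurableSet) hanti
      ⟨0, measure_ne_top _ _⟩
    refine ge_of_tendsto' hlim fun n => ?_
    have hpos : (0 : ℝ) < 1 / ((n : ℝ) + 1) := by positivity
    obtain ⟨l, hl, hlt⟩ := exists_lt_of_lt_csSup ⟨0, hS0⟩ (sub_lt_self (sSup S) hpos)
    have h2 : t ≤ μ {x | l ≤ r x} := hl
    refine h2.trans (measure_mono fun x hx => ?_)
    simp only [mem_ofPred_eq] at hx ⊢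
    linarith
  · have hU : {x | sSup S < r x} = ⋃ n : ℕ, {x | sSup S + 1 / ((n : ℝ) + 1) ≤ r x} := by
      ext x
      simp only [mem_ofPred_eq, mem_iUnion]
      constructor
      · intro h
        obtain ⟨n, hn⟩ := exists_nat_one_div_lt (sub_pos.2 h)
        exact ⟨n, by linarith⟩
      · rintro ⟨n, hn⟩
        have : (0 : ℝ) < 1 / ((n : ℝ) + 1) := by positivity
        linarith
    have hmono : Monotone (fun n : ℕ => {x | sSup S + 1 / ((n : ℝ) + 1) ≤ r x}) := by
      intro m n hmn x hx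
      simp only [mem_ofPred_eq] at hx ⊢
      have : 1 / ((n : ℝ) + 1) ≤ 1 / ((m : ℝ) + 1) := by
        apply one_div_le_one_div_of_le (by positivity)
        have : (m : ℝ) ≤ n := by exact_mod_cast hmn
        linarith
      linarith
    rw [hU]
    have hlim := tendsto_measure_iUnion_atTop (μ := μ) hmono
    refine le_of_tendsto' hlim fun n => ?_
    have hpos : (0 : ℝ) < 1 / ((n : ℝ) + 1) := by positivity
    by_contra hlt
    push Not at hlt
    have : sSup S + 1 / ((n : ℝ) + 1) ∈ S := hlt.le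
    have := le_csSup hSb this
    linarith

theorem par (a c : ℂ) : 2 * ‖c‖ ^ 2 ≤ ‖a - c‖ ^ 2 + ‖a + c‖ ^ 2 := by
  have h := parallelogram_law_with_norm ℝ a c
  nlinarith [norm_nonneg a]

theorem gm_bd (P : CPoly) : ∃ D : ℝ, ∀ b x : P.X, ‖P.gm x - P.gm b‖ ≤ D := by
  refine ⟨2 * ‖P.gmB‖, fun b x => ?_⟩
  have h1 : ‖P.gm x‖ ≤ ‖P.gmB‖ := P.gmB.norm_coe_le_norm x
  have h2 : ‖P.gm b‖ ≤ ‖P.gmB‖ := P.gmB.norm_coe_le_norm b
  exact (norm_sub_le _ _).trans (by linarith)

theorem st_G2 : ST_G2 := by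
  intro hPM P b0 f c hf hc hI1 hI2
  have hprob := (hPM P).2.2
  have hk := (hPM P).2.1
  have := hprob b0
  obtain ⟨D, hD⟩ := gm_bd P
  have hcm : Measurable (fun x => ENNReal.ofReal (‖f x - c‖ ^ 2)) :=
    ((f.continuous.sub continuous_const).norm.pow 2).measurable.ennreal_ofReal
  have hcp : Measurable (fun x => ENNReal.ofReal (‖f x + c‖ ^ 2)) :=
    ((f.continuous.add continuous_const).norm.pow 2).measurable.ennreal_ofReal
  -- the minimum kernel
  set k : P.X → P.X → ENNReal := fun b x => ENNReal.ofReal (P.ker (P.gm b) x) with hkdef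
  set m : P.X → P.X → ENNReal := fun b x => min (k b0 x) (k b x) with hmdef
  have hkm2 : Measurable (fun q : P.X × P.X => k q.1 q.2) := (ker_meas2 P).ennreal_ofReal
  have hkm : ∀ b, Measurable (k b) := fun b => (ker_meas P _).ennreal_ofReal
  have hm2 : Measurable (fun q : P.X × P.X => m q.1 q.2) :=
    ((hkm b0).comp measurable_snd).min hkm2
  have hc0 : (0 : ℝ) ≤ 2 * ‖c‖ ^ 2 := by positivity
  have hstep1 : ∀ b, ENNReal.ofReal (2 * ‖c‖ ^ 2) * ∫⁻ x, m b x ∂P.ds ≤
      (∫⁻ x, ENNReal.ofReal (‖f x - c‖ ^ 2) ∂(P.Pm b0)) +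
        ∫⁻ x, ENNReal.ofReal (‖f x + c‖ ^ 2) ∂(P.Pm b) := by
    intro b
    have hmul : Measurable (fun x => ENNReal.ofReal (P.ker (P.gm b0) x) *
        ENNReal.ofReal (‖f x - c‖ ^ 2)) := (hkm b0).mul hcm
    have hmin : Measurable (fun x => m b x) := (hkm b0).min (hkm b)
    rw [lint_Pm P b0 hcm, lint_Pm P b hcp, ← lintegral_add_left hmul,
      ← lintegral_const_mul _ hmin]
    refine lintegral_mono fun x => ?_
    show ENNReal.ofReal (2 * ‖c‖ ^ 2) * min (k b0 x) (k b x) ≤
      k b0 x * ENNReal.ofReal (‖f x - c‖ ^ 2) + k b x * ENNReal.ofReal (‖f x + c‖ ^ 2)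
    calc ENNReal.ofReal (2 * ‖c‖ ^ 2) * min (k b0 x) (k b x)
        ≤ (ENNReal.ofReal (‖f x - c‖ ^ 2) + ENNReal.ofReal (‖f x + c‖ ^ 2)) *
            min (k b0 x) (k b x) := by
          gcongr
          rw [← ENNReal.ofReal_add (by positivity) (by positivity)]
          exact ENNReal.ofReal_le_ofReal (par _ _)
      _ = min (k b0 x) (k b x) * ENNReal.ofReal (‖f x - c‖ ^ 2) +
            min (k b0 x) (k b x) * ENNReal.ofReal (‖f x + c‖ ^ 2) := by ring
      _ ≤ _ := by
          gcongr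
          · exact min_le_left _ _
          · exact min_le_right _ _
  have hstep2 : ENNReal.ofReal (2 * ‖c‖ ^ 2) * ∫⁻ b, (∫⁻ x, m b x ∂P.ds) ∂(P.Pm b0) ≤
      ENNReal.ofReal (20 * eps0) := by
    have hmm : Measurable (fun b => ∫⁻ x, m b x ∂P.ds) := hm2.lintegral_prod_right'
    rw [← lintegral_const_mul _ hmm]
    calc ∫⁻ b, ENNReal.ofReal (2 * ‖c‖ ^ 2) * (∫⁻ x, m b x ∂P.ds) ∂(P.Pm b0)
        ≤ ∫⁻ b, ((∫⁻ x, ENNReal.ofReal (‖f x - c‖ ^ 2) ∂(P.Pm b0)) +
            ∫⁻ x, ENNReal.ofReal (‖f x + c‖ ^ 2) ∂(P.Pm b)) ∂(P.Pm b0) :=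
          lintegral_mono hstep1
      _ = (∫⁻ x, ENNReal.ofReal (‖f x - c‖ ^ 2) ∂(P.Pm b0)) +
            ∫⁻ b, (∫⁻ x, ENNReal.ofReal (‖f x + c‖ ^ 2) ∂(P.Pm b)) ∂(P.Pm b0) := by
          rw [lintegral_add_left measurable_const]
          simp
      _ ≤ ENNReal.ofReal (4 * eps0) + ENNReal.ofReal (16 * eps0) := add_le_add hI1 hI2
      _ = ENNReal.ofReal (20 * eps0) := by
          rw [← ENNReal.ofReal_add (by unfold eps0; norm_num) (by unfold eps0; norm_num)]
          congr 1
          ring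
  -- swapping
  set M : P.X → ENNReal := fun x => ∫⁻ b, m b x ∂(P.Pm b0) with hMdef
  have hMm : Measurable M := hm2.lintegral_prod_left'
  have hswap : ∫⁻ b, (∫⁻ x, m b x ∂P.ds) ∂(P.Pm b0) = ∫⁻ x, M x ∂P.ds :=
    lintegral_lintegral_swap hm2.aemeasurable
  have hMint : ∫⁻ x, M x ∂P.ds ≤ ENNReal.ofReal (10.01 * eps0) := by
    rw [← hswap]
    have hcc : ENNReal.ofReal 1.999 ≤ ENNReal.ofReal (2 * ‖c‖ ^ 2) := by
      apply ENNReal.ofReal_le_ofReal
      have : (0.9999 : ℝ) ≤ ‖c‖ := by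
        refine le_trans ?_ hc
        unfold eps0; norm_num
      nlinarith
    have h3 : ENNReal.ofReal 1.999 * ∫⁻ b, (∫⁻ x, m b x ∂P.ds) ∂(P.Pm b0) ≤
        ENNReal.ofReal (20 * eps0) := le_trans (by gcongr) hstep2
    have h4 : ENNReal.ofReal (20 * eps0) ≤ ENNReal.ofReal 1.999 * ENNReal.ofReal (10.01 * eps0) := by
      rw [← ENNReal.ofReal_mul (by norm_num)]
      apply ENNReal.ofReal_le_ofReal
      unfold eps0
      norm_num
    exact (ENNReal.mul_le_mul_iff_right (by rw [Ne, ENNReal.ofReal_eq_zero]; norm_num)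
      (by simp)).1 (h3.trans h4)
  -- quantile
  set r : P.X → ℝ := fun x => ‖P.gm x - P.gm b0‖ with hrdef
  have hrm : Measurable r := ((gm_meas P).sub_const _).norm
  have htt : (0 : ℝ) < tt := by unfold tt; norm_num
  obtain ⟨l, hl1, hl2⟩ := quantile (P.Pm b0) r hrm (fun x => norm_nonneg _) D (fun x => hD b0 x)
    (ENNReal.ofReal tt) (by simpa using htt) (by
      rw [← ENNReal.ofReal_one]
      apply ENNReal.ofReal_le_ofReal
      unfold tt; norm_num)
  -- choice of `e`
  set κ : ENNReal := ENNReal.ofReal (10.1 * eps0 / tt) with hκ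
  have hex : ∃ e : P.X, l ≤ r e ∧ 0 < k b0 e ∧ M e ≤ κ * k b0 e := by
    by_contra hno
    push Not at hno
    have hA : MeasurableSet {x | l ≤ r x} := measurableSet_le measurable_const hrm
    have h5 : κ * (P.Pm b0) {x | l ≤ r x} ≤ ∫⁻ x, M x ∂P.ds := by
      unfold CPoly.Pm
      rw [withDensity_apply _ hA, ← lintegral_const_mul _ (hkm b0)]
      calc ∫⁻ x in {x | l ≤ r x}, κ * k b0 x ∂P.ds ≤ ∫⁻ x in {x | l ≤ r x}, M x ∂P.ds := by
            refine setLIntegral_mono' hA fun x hx => ?_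
            rcases eq_or_ne (k b0 x) 0 with h0 | h0
            · rw [h0, mul_zero]; exact bot_le
            · exact (hno x hx (pos_iff_ne_zero.2 h0)).le
        _ ≤ ∫⁻ x, M x ∂P.ds := setLIntegral_le_lintegral _ _
    have h6 : κ * ENNReal.ofReal tt ≤ ENNReal.ofReal (10.01 * eps0) :=
      le_trans (by gcongr) (h5.trans hMint)
    rw [hκ, ← ENNReal.ofReal_mul (by unfold eps0 tt; norm_num)] at h6
    rw [ENNReal.ofReal_le_ofReal_iff (by unfold eps0; norm_num)] at h6
    have : 10.1 * eps0 / tt * tt = 10.1 * eps0 := by field_simp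
    rw [this] at h6
    unfold eps0 at h6
    norm_num at h6
  obtain ⟨e, he1, he2, he3⟩ := hex
  have hke : 0 < P.ker (P.gm b0) e := ENNReal.ofReal_pos.1 he2
  set Bg : Set P.X := {b | r b ≤ r e ∧ P.ker (P.gm b) e ≤ tt * P.ker (P.gm b0) e} with hBg
  have hB1 : MeasurableSet {b : P.X | r e < r b} := measurableSet_lt measurable_const hrm
  have hB2 : MeasurableSet {b : P.X | tt * P.ker (P.gm b0) e < P.ker (P.gm b) e} :=
    measurableSet_lt measurable_const (ker_meas1 P e)
  have hBgm : MeasurableSet Bg :=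
    (measurableSet_le hrm measurable_const).inter
      (measurableSet_le (ker_meas1 P e) measurable_const)
  refine ⟨e, Bg, hBgm, hke, ?_, fun b hb => hb⟩
  have hcompl : Bgᶜ ⊆ {b : P.X | r e < r b} ∪
      {b : P.X | tt * P.ker (P.gm b0) e < P.ker (P.gm b) e} := by
    intro b hb
    by_cases h1 : r b ≤ r e
    · right
      show tt * P.ker (P.gm b0) e < P.ker (P.gm b) e
      by_contra h2
      push Not at h2
      exact hb ⟨h1, h2⟩
    · left
      exact not_le.1 h1
  have hm1 : (P.Pm b0) {b : P.X | r e < r b} ≤ ENNReal.ofReal tt := by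
    refine le_trans (measure_mono ?_) hl2
    intro b hb
    exact lt_of_le_of_lt he1 hb
  have hm3 : (P.Pm b0) {b : P.X | tt * P.ker (P.gm b0) e < P.ker (P.gm b) e} ≤
      ENNReal.ofReal tt := by
    have h7 : ENNReal.ofReal (tt * P.ker (P.gm b0) e) *
        (P.Pm b0) {b : P.X | tt * P.ker (P.gm b0) e < P.ker (P.gm b) e} ≤ M e := by
      rw [← setLIntegral_const]
      calc ∫⁻ _ in {b : P.X | tt * P.ker (P.gm b0) e < P.ker (P.gm b) e},
            ENNReal.ofReal (tt * P.ker (P.gm b0) e) ∂(P.Pm b0)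
          ≤ ∫⁻ b in {b : P.X | tt * P.ker (P.gm b0) e < P.ker (P.gm b) e}, m b e ∂(P.Pm b0) := by
            refine setLIntegral_mono' hB2 fun b hb => ?_
            refine le_min ?_ ?_
            · apply ENNReal.ofReal_le_ofReal
              have : tt ≤ 1 := by unfold tt; norm_num
              nlinarith
            · exact ENNReal.ofReal_le_ofReal (le_of_lt hb)
        _ ≤ M e := setLIntegral_le_lintegral _ _
    have h8 := h7.trans he3
    have h9 : κ * k b0 e ≤ ENNReal.ofReal (tt * P.ker (P.gm b0) e) * ENNReal.ofReal tt := by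
      rw [hκ, hkdef]
      show ENNReal.ofReal (10.1 * eps0 / tt) * ENNReal.ofReal (P.ker (P.gm b0) e) ≤ _
      rw [← ENNReal.ofReal_mul (by unfold eps0 tt; norm_num), ← ENNReal.ofReal_mul (by positivity)]
      apply ENNReal.ofReal_le_ofReal
      have : 10.1 * eps0 / tt ≤ tt * tt := by unfold eps0 tt; norm_num
      calc 10.1 * eps0 / tt * P.ker (P.gm b0) e ≤ tt * tt * P.ker (P.gm b0) e :=
            mul_le_mul_of_nonneg_right this hke.le
        _ = _ := by ring
    have hne : ENNReal.ofReal (tt * P.ker (P.gm b0) e) ≠ 0 := by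
      rw [Ne, ENNReal.ofReal_eq_zero, not_le]
      positivity
    exact (ENNReal.mul_le_mul_iff_right hne ENNReal.ofReal_ne_top).1 (h8.trans h9)
  have hm4 : (P.Pm b0) Bgᶜ ≤ ENNReal.ofReal (2 * tt) := by
    refine (measure_mono hcompl).trans ((measure_union_le _ _).trans ?_)
    refine (add_le_add hm1 hm3).trans (le_of_eq ?_)
    rw [← ENNReal.ofReal_add htt.le htt.le]
    congr 1
    ring
  have hsum := prob_add_prob_compl (μ := P.Pm b0) hBgm
  have h10 : ENNReal.ofReal (1 - 2 * tt) + ENNReal.ofReal (2 * tt) ≤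
      (P.Pm b0) Bg + ENNReal.ofReal (2 * tt) := by
    rw [← ENNReal.ofReal_add (by unfold tt; norm_num) (by positivity)]
    have : 1 - 2 * tt + 2 * tt = 1 := by ring
    rw [this, ENNReal.ofReal_one, ← hsum]
    gcongr
  exact (ENNReal.add_le_add_iff_right ENNReal.ofReal_ne_top).1 h10

end

end Pool.Agent.Helper55.CP
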